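import Mathlib

open Complex Metric Set

namespace Pool.Agent.Results.MP_f04b5a_an.InfiniteValence

/-- The class `S`: analytic and univalent on the unit disc, `f 0 = 0`, `f' 0 = 1`. -/
def InS (f : ℂ → ℂ) : Prop :=
  DifferentiableOn ℂ f (ball 0 1) ∧ InjOn f (ball 0 1) ∧ f 0 = 0 ∧ deriv f 0 = 1

/-- strip -/
def U (a b : ℝ) : Set ℂ := {ζ | a < ζ.im ∧ ζ.im < b}

/-- Riemann map data of the disc onto a horizontal strip. -/
lemma strip_map (a b : ℝ) (ha : a < 0) (hb : 0 < b) :
    ∃ (ψ : ℂ → ℂ) (D : ℂ), D ≠ 0 ∧ ψ 0 = 0 ∧ HasDerivAt ψ D 0 ∧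
      DifferentiableOn ℂ ψ (ball 0 1) ∧ InjOn ψ (ball 0 1) ∧
      (∀ z ∈ ball (0:ℂ) 1, ψ z ∈ U a b) ∧ (∀ ζ ∈ U a b, ∃ z ∈ ball (0:ℂ) 1, ψ z = ζ) := by
  set H : ℝ := b - a with hH
  have hHpos : 0 < H := by rw [hH]; linarith
  set m : ℝ := (a + b) / 2 with hm
  have hpi := Real.pi_pos
  set θ : ℝ := -(Real.pi * m / H) with hθ
  have hm1 : m < H / 2 := by rw [hm, hH]; linarith
  have hm2 : -(H / 2) < m := by rw [hm, hH]; linarith
  have hθ1 : θ < Real.pi / 2 := by
    rw [hθ]
    have : -(H/2) / H < m / H := div_lt_div_of_pos_right hm2 hHpos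
    have h2 : -(H/2) / H = -(1/2) := by field_simp
    rw [h2] at this
    have : Real.pi * (m / H) > Real.pi * (-(1/2)) := by
      exact mul_lt_mul_of_pos_left this hpi
    rw [mul_div_assoc]; linarith
  have hθ2 : -(Real.pi / 2) < θ := by
    rw [hθ]
    have : m / H < (H/2) / H := div_lt_div_of_pos_right hm1 hHpos
    have h2 : (H/2) / H = (1/2) := by field_simp
    rw [h2] at this
    have : Real.pi * (m / H) < Real.pi * ((1/2)) := by
      exact mul_lt_mul_of_pos_left this hpi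
    rw [mul_div_assoc]; linarith
  set W0 : ℂ := exp (θ * I) with hW0
  have hW0re : 0 < W0.re := by
    rw [hW0, exp_ofReal_mul_I_re]
    exact Real.cos_pos_of_mem_Ioo ⟨hθ2, hθ1⟩
  have hW0ne : W0 ≠ 0 := exp_ne_zero _
  set cW : ℂ := (starRingEnd ℂ) W0 with hcW
  have hcre : cW.re = W0.re := by rw [hcW]; simp
  have hcim : cW.im = -W0.im := by rw [hcW]; simp
  have hsum : W0 + cW ≠ 0 := by
    intro h
    have := congrArg Complex.re h
    rw [Complex.add_re, hcre, Complex.zero_re] at this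
    linarith
  have hlogW0 : log W0 = θ * I := by
    rw [hW0, log_exp]
    · simp; linarith
    · simp; linarith
  set W : ℂ → ℂ := fun z => (W0 + cW * z) / (1 - z) with hW
  have hW0' : W 0 = W0 := by simp [hW]
  have hne1 : ∀ z ∈ ball (0:ℂ) 1, 1 - z ≠ 0 := by
    intro z hz h
    have : z = 1 := by linear_combination -h
    rw [this] at hz
    simp at hz
  have hWre : ∀ z ∈ ball (0:ℂ) 1, 0 < (W z).re := by
    intro z hz
    have h1 := hne1 z hz
    have hz' : normSq z < 1 := by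
      rw [mem_ball_zero_iff] at hz
      rw [normSq_eq_norm_sq]
      nlinarith [norm_nonneg z]
    have hpos : 0 < normSq (1 - z) := normSq_pos.2 h1
    have : (W z).re = W0.re * (1 - normSq z) / normSq (1 - z) := by
      simp only [hW, Complex.div_re]
      rw [← add_div]
      congr 1
      simp only [Complex.add_re, Complex.mul_re, Complex.sub_re, Complex.one_re, Complex.add_im,
        Complex.mul_im, Complex.sub_im, Complex.one_im, hcre, hcim, normSq_apply]
      ring
    rw [this]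
    apply div_pos _ hpos
    exact mul_pos hW0re (by linarith)
  have hslit : ∀ z ∈ ball (0:ℂ) 1, W z ∈ slitPlane := by
    intro z hz
    exact Or.inl (hWre z hz)
  have hWd : ∀ z ∈ ball (0:ℂ) 1, HasDerivAt W ((W0 + cW) / (1 - z)^2) z := by
    intro z hz
    have h1 := hne1 z hz
    have e1 : HasDerivAt (fun z : ℂ => W0 + cW * z) cW z := by
      simpa using ((hasDerivAt_id z).const_mul cW).const_add W0
    have e2 : HasDerivAt (fun z : ℂ => 1 - z) (-1) z := by
      simpa using (hasDerivAt_id z).const_sub 1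
    have e3 := e1.div e2 h1
    have e4 : (cW * (1 - z) - (W0 + cW * z) * (-1)) / (1 - z)^2 = (W0 + cW) / (1 - z)^2 := by
      congr 1
      ring
    rw [e4] at e3
    exact e3
  set ψ : ℂ → ℂ := fun z => (H / Real.pi : ℝ) * log (W z) + m * I with hψ
  have hψd : ∀ z ∈ ball (0:ℂ) 1,
      HasDerivAt ψ ((H / Real.pi : ℝ) * (((W0 + cW) / (1 - z)^2) / W z)) z := by
    intro z hz
    have := (hWd z hz).clog (hslit z hz)
    exact (this.const_mul _).add_const _
  have hHp : ((H / Real.pi : ℝ) : ℂ) ≠ 0 := by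
    have : H / Real.pi ≠ 0 := (div_pos hHpos hpi).ne'
    exact_mod_cast this
  refine ⟨ψ, (H / Real.pi : ℝ) * (((W0 + cW) / (1 - 0)^2) / W 0), ?_, ?_, hψd 0 (by simp), ?_, ?_, ?_, ?_⟩
  · rw [hW0']
    apply mul_ne_zero hHp
    apply div_ne_zero _ hW0ne
    simpa using hsum
  · simp only [hψ, hW0', hlogW0]
    have : (H / Real.pi : ℝ) * θ + m = 0 := by
      rw [hθ]; field_simp; ring
    have h2 : (((H / Real.pi : ℝ) * θ + m : ℝ) : ℂ) = 0 := by rw [this]; simp
    push_cast at h2 ⊢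
    linear_combination I * h2
  · intro z hz
    exact (hψd z hz).differentiableAt.differentiableWithinAt
  · intro z1 hz1 z2 hz2 h
    have h' : log (W z1) = log (W z2) := by
      have : ((H / Real.pi : ℝ) : ℂ) * log (W z1) = (H / Real.pi : ℝ) * log (W z2) := by
        have := h
        simp only [hψ] at this
        exact add_right_cancel this
      exact mul_left_cancel₀ hHp this
    have h3 : W z1 = W z2 := by
      have := congrArg exp h'
      rwa [exp_log (slitPlane_ne_zero (hslit z1 hz1)),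
        exp_log (slitPlane_ne_zero (hslit z2 hz2))] at this
    simp only [hW] at h3
    rw [div_eq_div_iff (hne1 z1 hz1) (hne1 z2 hz2)] at h3
    have : (W0 + cW) * (z1 - z2) = 0 := by linear_combination h3
    rcases mul_eq_zero.1 this with h4 | h4
    · exact absurd h4 hsum
    · exact sub_eq_zero.1 h4
  · intro z hz
    have him : (ψ z).im = H / Real.pi * arg (W z) + m := by
      simp only [hψ, add_im, im_ofReal_mul, log_im, mul_im, ofReal_re, ofReal_im, I_re, I_im]
      ring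
    have harg := Complex.abs_arg_lt_pi_div_two_iff.2 (Or.inl (hWre z hz))
    rw [abs_lt] at harg
    have hq : 0 < H / Real.pi := div_pos hHpos hpi
    have e1 : H / Real.pi * (Real.pi / 2) = H / 2 := by field_simp
    constructor
    · rw [him]
      have : H / Real.pi * (-(Real.pi / 2)) < H / Real.pi * arg (W z) :=
        mul_lt_mul_of_pos_left harg.1 hq
      have e3 : H / Real.pi * (-(Real.pi / 2)) = -(H / 2) := by rw [mul_neg, e1]
      rw [e3] at this
      have : a = -(H/2) + m := by rw [hH, hm]; ring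
      linarith
    · rw [him]
      have : H / Real.pi * arg (W z) < H / Real.pi * ((Real.pi / 2)) :=
        mul_lt_mul_of_pos_left harg.2 hq
      rw [e1] at this
      have : b = (H/2) + m := by rw [hH, hm]; ring
      linarith
  · intro ζ hζ
    set η : ℂ := (Real.pi / H : ℝ) * (ζ - m * I) with hη
    have hηim : η.im = Real.pi / H * (ζ.im - m) := by
      rw [hη, im_ofReal_mul]
      simp
    have hq : 0 < Real.pi / H := div_pos hpi hHpos
    have e1 : Real.pi / H * (H / 2) = Real.pi / 2 := by field_simp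
    have hη1 : η.im < Real.pi / 2 := by
      rw [hηim, ← e1]
      apply mul_lt_mul_of_pos_left _ hq
      have := hζ.2
      rw [hH, hm]; linarith
    have hη2 : -(Real.pi / 2) < η.im := by
      rw [hηim, ← e1, ← mul_neg]
      apply mul_lt_mul_of_pos_left _ hq
      have := hζ.1
      rw [hH, hm]; linarith
    set ω : ℂ := exp η with hω
    have hωre : 0 < ω.re := by
      rw [hω, exp_re]
      exact mul_pos (Real.exp_pos _) (Real.cos_pos_of_mem_Ioo ⟨hη2, hη1⟩)
    have hden : ω + cW ≠ 0 := by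
      intro h
      have := congrArg Complex.re h
      rw [Complex.add_re, hcre, Complex.zero_re] at this
      linarith
    have hlog : log ω = η := by
      rw [hω, log_exp]
      · linarith
      · linarith
    refine ⟨(ω - W0) / (ω + cW), ?_, ?_⟩
    · rw [mem_ball_zero_iff, norm_div, div_lt_one (norm_pos_iff.2 hden)]
      have : normSq (ω - W0) < normSq (ω + cW) := by
        rw [normSq_apply, normSq_apply]
        simp only [sub_re, sub_im, add_re, add_im, hcre, hcim]
        nlinarith [mul_pos hωre hW0re]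
      rw [normSq_eq_norm_sq, normSq_eq_norm_sq] at this
      exact lt_of_pow_lt_pow_left₀ 2 (norm_nonneg _) this
    · have hWω : W ((ω - W0) / (ω + cW)) = ω := by
        simp only [hW]
        have h1 : 1 - (ω - W0) / (ω + cW) = (W0 + cW) / (ω + cW) := by
          field_simp
          ring
        have h2 : W0 + cW * ((ω - W0) / (ω + cW)) = (W0 + cW) * ω / (ω + cW) := by
          field_simp
          ring
        rw [h1, h2]
        field_simp
      simp only [hψ, hWω, hlog, hη]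
      have : ((H / Real.pi : ℝ) : ℂ) * ((Real.pi / H : ℝ) : ℂ) = 1 := by
        rw [← ofReal_mul]
        have : H / Real.pi * (Real.pi / H) = 1 := by field_simp
        rw [this]; simp
      linear_combination (ζ - m * I) * this

lemma mkS {a b : ℝ} {ψ : ℂ → ℂ} {D : ℂ} (hD : D ≠ 0) (h0 : ψ 0 = 0) (hψd : HasDerivAt ψ D 0)
    (hψ : DifferentiableOn ℂ ψ (ball 0 1)) (hψi : InjOn ψ (ball 0 1))
    (hψm : ∀ z ∈ ball (0:ℂ) 1, ψ z ∈ U a b) {Φ : ℂ → ℂ} {d : ℂ} (hd : d ≠ 0)
    (hΦd : HasDerivAt Φ d 0) (hΦ : DifferentiableOn ℂ Φ (U a b)) (hΦi : InjOn Φ (U a b)) :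
    InS (fun z => (Φ (ψ z) - Φ 0) / (d * D)) := by
  have hdD : d * D ≠ 0 := mul_ne_zero hd hD
  refine ⟨?_, ?_, ?_, ?_⟩
  · apply DifferentiableOn.div_const
    apply DifferentiableOn.sub_const
    exact hΦ.comp hψ hψm
  · intro z1 hz1 z2 hz2 h
    have h' : Φ (ψ z1) = Φ (ψ z2) := by
      have := h
      simp only at this
      rw [div_left_inj' hdD] at this
      exact sub_left_injective this
    exact hψi hz1 hz2 (hΦi (hψm z1 hz1) (hψm z2 hz2) h')
  · simp [h0]
  · have h1 : HasDerivAt (fun z => Φ (ψ z)) (d * D) 0 := by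
      have h2 : HasDerivAt Φ d (ψ 0) := by rw [h0]; exact hΦd
      exact h2.comp 0 hψd
    have h3 := (h1.sub_const (Φ 0)).div_const (d * D)
    rw [h3.deriv, div_self hdD]

/-- no solutions: first pole -/
lemma pole1 {s : ℝ} (hs : 0 < s) (hs3 : s < 0.3) {ζ : ℂ} (hζ : ζ ∈ U (-(1/2)) (s/4)) :
    (s + 2 * I : ℂ) + (1 - s) * exp ((1 + I) * ζ) ≠ 0 := by
  intro h
  set x := ζ.re
  set y := ζ.im
  have hy1 : -(1/2) < y := hζ.1
  have hy2 : y < s/4 := hζ.2
  set E := exp ((1 + I) * ζ) with hE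
  have hre : ((1 + I) * ζ).re = x - y := by simp [x, y]
  have him : ((1 + I) * ζ).im = x + y := by simp [x, y]; ring
  have hEre : E.re = Real.exp (x - y) * Real.cos (x + y) := by
    rw [hE, exp_re, hre, him]
  have hEim : E.im = Real.exp (x - y) * Real.sin (x + y) := by
    rw [hE, exp_im, hre, him]
  have h1 := congrArg Complex.re h
  have h2 := congrArg Complex.im h
  simp only [add_re, mul_re, sub_re, one_re, ofReal_re, sub_im, one_im, ofReal_im, add_im, mul_im,
    I_re, I_im, zero_re, zero_im, re_ofNat, im_ofNat] at h1 h2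
  have h1' : s + (1 - s) * E.re = 0 := by linarith
  have h2' : 2 + (1 - s) * E.im = 0 := by linarith
  set p := x - y with hp
  set P := Real.exp p with hP
  have hPpos : 0 < P := Real.exp_pos _
  have hsq : ((1 - s) * P)^2 = s^2 + 4 := by
    have e1 : (1 - s) * E.re = -s := by linarith
    have e2 : (1 - s) * E.im = -2 := by linarith
    have : ((1-s) * E.re)^2 + ((1-s) * E.im)^2 = ((1 - s) * P)^2 := by
      rw [hEre, hEim]
      have := Real.sin_sq_add_cos_sq (x + y)
      linear_combination (1-s)^2 * P^2 * this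
    rw [← this, e1, e2]; ring
  have h1s : 0 < 1 - s := by linarith
  have hPlow : 1 < P := by
    by_contra hc
    push Not at hc
    have : (1 - s) * P ≤ 1 := by nlinarith
    have : ((1 - s) * P)^2 ≤ 1 := by
      have h0 : 0 ≤ (1 - s) * P := by positivity
      nlinarith
    nlinarith
  have hPup : P < 3 := by
    by_contra hc
    push Not at hc
    have : 2.1 ≤ (1 - s) * P := by nlinarith
    have : 2.1 ^ 2 ≤ ((1 - s) * P)^2 := by
      apply pow_le_pow_left₀ (by norm_num) this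
    nlinarith
  have hp0 : 0 < p := by
    have : Real.exp 0 < Real.exp p := by rw [Real.exp_zero]; exact hPlow
    exact Real.exp_lt_exp.1 this
  have hp2 : p < 2 := by
    have h3 : Real.exp p < Real.exp 2 := by
      have e2 : Real.exp 2 = Real.exp 1 * Real.exp 1 := by rw [← Real.exp_add]; norm_num
      have := Real.exp_one_gt_d9
      rw [e2]
      have : 3 < Real.exp 1 * Real.exp 1 := by nlinarith
      exact lt_trans hPup this
    exact Real.exp_lt_exp.1 h3
  have hθ : x + y = p + 2 * y := by rw [hp]; ring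
  have hcos : Real.cos (x + y) < 0 := by
    by_contra hc
    push Not at hc
    have : 0 ≤ (1 - s) * E.re := by rw [hEre]; positivity
    linarith
  have hsin : Real.sin (x + y) < 0 := by
    by_contra hc
    push Not at hc
    have : 0 ≤ (1 - s) * E.im := by rw [hEim]; positivity
    linarith
  have hpi := Real.pi_gt_three
  have hθ1 : x + y < Real.pi := by rw [hθ]; linarith
  have hθ2 : -1 < x + y := by rw [hθ]; linarith
  rcases le_or_gt 0 (x + y) with h5 | h5
  · have := Real.sin_nonneg_of_nonneg_of_le_pi h5 hθ1.le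
    linarith
  · have := Real.cos_pos_of_mem_Ioo (x := x + y) ⟨by linarith, by linarith⟩
    linarith

/-- no solutions: second pole -/
lemma pole2 {s : ℝ} (hs : 0 < s) (hs3 : s < 0.3) {ζ : ℂ} (hζ : ζ ∈ U (-(1/2)) (s/4)) :
    (s + 2 * I : ℂ) - 2 * I * (1 - s) * exp ((1 - I) * ζ) ≠ 0 := by
  intro h
  set x := ζ.re
  set y := ζ.im
  have hy1 : -(1/2) < y := hζ.1
  have hy2 : y < s/4 := hζ.2
  set E := exp ((1 - I) * ζ) with hE
  have hre : ((1 - I) * ζ).re = x + y := by simp [x, y]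
  have him : ((1 - I) * ζ).im = -(x - y) := by simp [x, y]; ring
  have hEre : E.re = Real.exp (x + y) * Real.cos (x - y) := by
    rw [hE, exp_re, hre, him, Real.cos_neg]
  have hEim : E.im = -(Real.exp (x + y) * Real.sin (x - y)) := by
    rw [hE, exp_im, hre, him, Real.sin_neg, mul_neg]
  have h1 := congrArg Complex.re h
  have h2 := congrArg Complex.im h
  simp only [add_re, mul_re, sub_re, one_re, ofReal_re, sub_im, one_im, ofReal_im, add_im, mul_im,
    I_re, I_im, zero_re, zero_im, re_ofNat, im_ofNat] at h1 h2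
  have h1' : s + 2 * (1 - s) * E.im = 0 := by linarith
  have h2' : 2 - 2 * (1 - s) * E.re = 0 := by linarith
  set q := x + y with hq
  set P := Real.exp q with hP
  have hPpos : 0 < P := Real.exp_pos _
  have h1s : 0 < 1 - s := by linarith
  have e1 : (1 - s) * (P * Real.cos (x - y)) = 1 := by rw [← hEre]; linarith
  have e2 : (1 - s) * (P * Real.sin (x - y)) = s / 2 := by
    have : E.im = -(P * Real.sin (x - y)) := hEim
    rw [this] at h1'
    linarith
  have hsq : ((1 - s) * P)^2 = 1 + s^2/4 := by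
    have : ((1-s) * (P * Real.cos (x - y)))^2 + ((1-s) * (P * Real.sin (x - y)))^2
        = ((1 - s) * P)^2 := by
      have := Real.sin_sq_add_cos_sq (x - y)
      linear_combination (1-s)^2 * P^2 * this
    rw [← this, e1, e2]; ring
  have hlow : 1 ≤ (1 - s) * P := by
    by_contra hc
    push Not at hc
    have h0 : 0 ≤ (1 - s) * P := by positivity
    nlinarith
  have hqs : s ≤ q := by
    -- exp (-q) ≤ 1 - s ; and  1 - q ≤ exp(-q)
    have h3 : Real.exp (-q) ≤ 1 - s := by
      rw [Real.exp_neg]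
      rw [inv_le_iff_one_le_mul₀ hPpos]
      linarith
    have h4 := Real.add_one_le_exp (-q)
    linarith
  have hPup : P < 3/2 := by
    by_contra hc
    push Not at hc
    have : 1.05 ≤ (1 - s) * P := by nlinarith
    have : 1.05 ^ 2 ≤ ((1 - s) * P)^2 := by
      apply pow_le_pow_left₀ (by norm_num) this
    nlinarith
  have hq2 : q < 1/2 := by
    have h4 := Real.add_one_le_exp q
    by_contra hc
    push Not at hc
    linarith
  have hv : x - y = q - 2 * y := by rw [hq]; ring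
  have hpi := Real.pi_gt_three
  have hv1 : s / 2 < x - y := by rw [hv]; linarith
  have hv2 : x - y < Real.pi / 2 := by rw [hv]; linarith
  have htan := Real.lt_tan (x := x - y) (by linarith) hv2
  have hcos : 0 < Real.cos (x - y) := Real.cos_pos_of_mem_Ioo ⟨by linarith, hv2⟩
  rw [Real.tan_eq_sin_div_cos, lt_div_iff₀ hcos] at htan
  have h6 : (1 - s) * P * ((x - y) * Real.cos (x - y)) < (1 - s) * P * Real.sin (x - y) :=
    mul_lt_mul_of_pos_left htan (by positivity)
  nlinarith

lemma exp_inj_strip1 {s : ℝ} (hs3 : s < 0.3) {ζ1 ζ2 : ℂ}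
    (h1 : ζ1 ∈ U (-(1/2)) (s/4)) (h2 : ζ2 ∈ U (-(1/2)) (s/4))
    (h : exp ((1 + I) * ζ1) = exp ((1 + I) * ζ2)) : ζ1 = ζ2 := by
  rw [exp_eq_exp_iff_exists_int] at h
  obtain ⟨n, hn⟩ := h
  have hI : I * I = -1 := I_mul_I
  have h3 : ζ1 - ζ2 = (n * Real.pi : ℝ) * (1 + I) := by
    have : (1 + I) * ((ζ1 - ζ2) - (n * Real.pi : ℝ) * (1 + I)) = 0 := by
      push_cast
      linear_combination hn - (n * Real.pi) * hI
    rcases mul_eq_zero.1 this with h4 | h4
    · exfalso
      have := congrArg Complex.re h4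
      simp at this
    · exact sub_eq_zero.1 h4
  have h4 : ζ1.im - ζ2.im = n * Real.pi := by
    have := congrArg Complex.im h3
    rw [im_ofReal_mul] at this
    simpa using this
  have hpi := Real.pi_gt_three
  have h5 : |ζ1.im - ζ2.im| < 1 := by
    rw [abs_lt]
    have := h1.1; have := h1.2; have := h2.1; have := h2.2
    constructor <;> linarith
  have hn0 : n = 0 := by
    by_contra hne
    have : (1:ℝ) ≤ |(n:ℝ)| := by exact_mod_cast Int.one_le_abs hne
    rw [h4, abs_mul, abs_of_pos Real.pi_pos] at h5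
    nlinarith
  rw [hn0] at h3
  simp at h3
  exact sub_eq_zero.1 h3

lemma exp_inj_strip2 {s : ℝ} (hs3 : s < 0.3) {ζ1 ζ2 : ℂ}
    (h1 : ζ1 ∈ U (-(1/2)) (s/4)) (h2 : ζ2 ∈ U (-(1/2)) (s/4))
    (h : exp ((1 - I) * ζ1) = exp ((1 - I) * ζ2)) : ζ1 = ζ2 := by
  rw [exp_eq_exp_iff_exists_int] at h
  obtain ⟨n, hn⟩ := h
  have hI : I * I = -1 := I_mul_I
  have h3 : ζ1 - ζ2 = (n * Real.pi : ℝ) * (I - 1) := by
    have : (1 - I) * ((ζ1 - ζ2) - (n * Real.pi : ℝ) * (I - 1)) = 0 := by
      push_cast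
      linear_combination hn + (n * Real.pi) * hI
    rcases mul_eq_zero.1 this with h4 | h4
    · exfalso
      have := congrArg Complex.re h4
      simp at this
    · exact sub_eq_zero.1 h4
  have h4 : ζ1.im - ζ2.im = n * Real.pi := by
    have := congrArg Complex.im h3
    rw [im_ofReal_mul] at this
    simpa using this
  have hpi := Real.pi_gt_three
  have h5 : |ζ1.im - ζ2.im| < 1 := by
    rw [abs_lt]
    have := h1.1; have := h1.2; have := h2.1; have := h2.2
    constructor <;> linarith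
  have hn0 : n = 0 := by
    by_contra hne
    have : (1:ℝ) ≤ |(n:ℝ)| := by exact_mod_cast Int.one_le_abs hne
    rw [h4, abs_mul, abs_of_pos Real.pi_pos] at h5
    nlinarith
  rw [hn0] at h3
  simp at h3
  exact sub_eq_zero.1 h3

lemma small_s {α : ℝ} (h0 : 0 < α) (h1 : α ≤ 1 / (1 + Real.exp Real.pi)) : α < 0.043 := by
  have h2 : (22.5 : ℝ) < Real.exp Real.pi := by
    have e1 : Real.exp 3.14 < Real.exp Real.pi := Real.exp_lt_exp.2 Real.pi_gt_d2
    have e2 : Real.exp 3.14 = Real.exp 1 * Real.exp 1 * Real.exp 1 * Real.exp 0.14 := by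
      rw [← Real.exp_add, ← Real.exp_add, ← Real.exp_add]; norm_num
    have e3 := Real.exp_one_gt_d9
    have e4 := Real.add_one_le_exp (0.14:ℝ)
    have e5 : (2.71:ℝ) < Real.exp 1 := by linarith
    have e6 : (2.71:ℝ) * 2.71 < Real.exp 1 * Real.exp 1 := by nlinarith
    have e7 : (2.71:ℝ) * 2.71 * 2.71 < Real.exp 1 * Real.exp 1 * Real.exp 1 := by nlinarith
    have e8 : (2.71:ℝ) * 2.71 * 2.71 * 1.14 < Real.exp 1 * Real.exp 1 * Real.exp 1 * Real.exp 0.14 := by
      nlinarith
    rw [← e2] at e8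
    norm_num at e8 ⊢
    linarith
  have h3 : (0:ℝ) < 1 + Real.exp Real.pi := by linarith
  rw [le_div_iff₀ h3] at h1
  by_contra hc
  push Not at hc
  nlinarith

lemma comb_aux {α β d u v t r s X k : ℂ} (hd : d ≠ 0) (hu : u ≠ 0) (hv : v ≠ 0) (ht : t ≠ 0)
    (hr : r ≠ 0) (_hs : s ≠ 0) :
    α * (k * X / d / (u * t / r^2)) + β * (X / d / (v * t / (s * r)^2)) =
      X * r^2 / (d * t * u * v) * (k * α * v + β * s^2 * u) := by
  field_simp

/-- **Infinite valence of arithmetic means for every weight `α ≤ 1/(1+e^π)`.** -/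
theorem result : ∀ α : ℝ, 0 < α → α ≤ 1 / (1 + Real.exp Real.pi) →
    ∃ f g : ℂ → ℂ, InS f ∧ InS g ∧
      ∃ w : ℂ, {z : ℂ | z ∈ ball (0:ℂ) 1 ∧ (α:ℂ) * f z + ((1 - α : ℝ) : ℂ) * g z = w}.Infinite := by
  intro α hα hαc
  have hαs := small_s hα hαc
  set β : ℝ := 1 - α with hβ
  have hβpos : 0 < β := by rw [hβ]; linarith
  set s : ℝ := Real.sqrt (2 * α / β) with hs
  have hs2 : s^2 * β = 2 * α := by
    rw [hs, Real.sq_sqrt (by positivity)]
    field_simp
  have hspos : 0 < s := by rw [hs]; positivity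
  have hs3 : s < 0.3 := by
    by_contra hc
    push Not at hc
    have : (0.3:ℝ)^2 ≤ s^2 := pow_le_pow_left₀ (by norm_num) hc 2
    nlinarith
  obtain ⟨ψ, D, hD, hψ0, hψd, hψdiff, hψi, hψm, hψs⟩ :=
    strip_map (-(1/2)) (s/4) (by norm_num) (by positivity)
  have hI : I * I = -1 := I_mul_I
  have hs2c : (s:ℂ)^2 * (β:ℂ) = 2 * (α:ℂ) := by exact_mod_cast hs2
  have hsne : (s:ℂ) ≠ 0 := by exact_mod_cast hspos.ne'
  have hs2i : (s:ℂ) + 2 * I ≠ 0 := by
    intro h
    have := congrArg Complex.re h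
    simp at this
    exact hspos.ne' this
  have h12i : (1:ℂ) + 2 * I ≠ 0 := by
    intro h
    have := congrArg Complex.re h
    simp at this
  have h1i : (1:ℂ) + I ≠ 0 := by
    intro h
    have := congrArg Complex.re h
    simp at this
  have h1i' : (1:ℂ) - I ≠ 0 := by
    intro h
    have := congrArg Complex.re h
    simp at this
  set P : ℂ → ℂ := fun ζ => exp ((1 + I) * ζ) / ((s + 2 * I : ℂ) + (1 - s) * exp ((1 + I) * ζ)) with hP
  set Q : ℂ → ℂ := fun ζ => exp ((1 - I) * ζ) / ((s + 2 * I : ℂ) - 2 * I * (1 - s) * exp ((1 - I) * ζ))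
    with hQ
  set p : ℂ := (1 + I) * (s + 2 * I) / (1 + 2 * I)^2 with hp
  set q : ℂ := (1 - I) * (s + 2 * I) / (s * (1 + 2 * I))^2 with hq
  have hpne : p ≠ 0 := by
    rw [hp]; exact div_ne_zero (mul_ne_zero h1i hs2i) (pow_ne_zero 2 h12i)
  have hqne : q ≠ 0 := by
    rw [hq]; exact div_ne_zero (mul_ne_zero h1i' hs2i) (pow_ne_zero 2 (mul_ne_zero hsne h12i))
  have h0U : (0:ℂ) ∈ U (-(1/2)) (s/4) := by
    constructor <;> simp
    exact hspos
  have hE1 : ∀ ζ : ℂ, HasDerivAt (fun ζ : ℂ => exp ((1 + I) * ζ)) (exp ((1 + I) * ζ) * (1 + I)) ζ := by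
    intro ζ
    have := ((hasDerivAt_id ζ).const_mul (1 + I)).cexp
    simpa using this
  have hE2 : ∀ ζ : ℂ, HasDerivAt (fun ζ : ℂ => exp ((1 - I) * ζ)) (exp ((1 - I) * ζ) * (1 - I)) ζ := by
    intro ζ
    have := ((hasDerivAt_id ζ).const_mul (1 - I)).cexp
    simpa using this
  have hPd : ∀ ζ ∈ U (-(1/2)) (s/4), HasDerivAt P
      ((exp ((1 + I) * ζ) * (1 + I) * ((s + 2 * I : ℂ) + (1 - s) * exp ((1 + I) * ζ)) -
        exp ((1 + I) * ζ) * ((1 - s) * (exp ((1 + I) * ζ) * (1 + I)))) /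
        ((s + 2 * I : ℂ) + (1 - s) * exp ((1 + I) * ζ))^2) ζ := by
    intro ζ hζ
    exact (hE1 ζ).div (((hE1 ζ).const_mul (1 - s : ℂ)).const_add (s + 2 * I : ℂ)) (pole1 hspos hs3 hζ)
  have hQd : ∀ ζ ∈ U (-(1/2)) (s/4), HasDerivAt Q
      ((exp ((1 - I) * ζ) * (1 - I) * ((s + 2 * I : ℂ) - 2 * I * (1 - s) * exp ((1 - I) * ζ)) -
        exp ((1 - I) * ζ) * (-(2 * I * (1 - s) * (exp ((1 - I) * ζ) * (1 - I))))) /
        ((s + 2 * I : ℂ) - 2 * I * (1 - s) * exp ((1 - I) * ζ))^2) ζ := by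
    intro ζ hζ
    exact (hE2 ζ).div (((hE2 ζ).const_mul (2 * I * (1 - s) : ℂ)).const_sub (s + 2 * I : ℂ))
      (pole2 hspos hs3 hζ)
  have hP0 : HasDerivAt P p 0 := by
    have := hPd 0 h0U
    have e : (exp ((1 + I) * 0) * (1 + I) * ((s + 2 * I : ℂ) + (1 - s) * exp ((1 + I) * 0)) -
        exp ((1 + I) * 0) * ((1 - s) * (exp ((1 + I) * 0) * (1 + I)))) /
        ((s + 2 * I : ℂ) + (1 - s) * exp ((1 + I) * 0))^2 = p := by
      rw [hp, mul_zero, exp_zero]
      have e1 : (s + 2 * I : ℂ) + (1 - s) * 1 = 1 + 2 * I := by ring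
      rw [e1]
      congr 1
      ring
    rw [e] at this
    exact this
  have hQ0 : HasDerivAt Q q 0 := by
    have := hQd 0 h0U
    have e : (exp ((1 - I) * 0) * (1 - I) * ((s + 2 * I : ℂ) - 2 * I * (1 - s) * exp ((1 - I) * 0)) -
        exp ((1 - I) * 0) * (-(2 * I * (1 - s) * (exp ((1 - I) * 0) * (1 - I))))) /
        ((s + 2 * I : ℂ) - 2 * I * (1 - s) * exp ((1 - I) * 0))^2 = q := by
      rw [hq, mul_zero, exp_zero]
      have e1 : (s + 2 * I : ℂ) - 2 * I * (1 - s) * 1 = s * (1 + 2 * I) := by ring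
      rw [e1]
      congr 1
      ring
    rw [e] at this
    exact this
  have hPi : InjOn P (U (-(1/2)) (s/4)) := by
    intro ζ1 h1 ζ2 h2 h
    simp only [hP] at h
    rw [div_eq_div_iff (pole1 hspos hs3 h1) (pole1 hspos hs3 h2)] at h
    have h3 : (s + 2 * I : ℂ) * (exp ((1 + I) * ζ1) - exp ((1 + I) * ζ2)) = 0 := by
      linear_combination h
    rcases mul_eq_zero.1 h3 with h4 | h4
    · exact absurd h4 hs2i
    · exact exp_inj_strip1 hs3 h1 h2 (sub_eq_zero.1 h4)
  have hQi : InjOn Q (U (-(1/2)) (s/4)) := by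
    intro ζ1 h1 ζ2 h2 h
    simp only [hQ] at h
    rw [div_eq_div_iff (pole2 hspos hs3 h1) (pole2 hspos hs3 h2)] at h
    have h3 : (s + 2 * I : ℂ) * (exp ((1 - I) * ζ1) - exp ((1 - I) * ζ2)) = 0 := by
      linear_combination h
    rcases mul_eq_zero.1 h3 with h4 | h4
    · exact absurd h4 hs2i
    · exact exp_inj_strip2 hs3 h1 h2 (sub_eq_zero.1 h4)
  have hPdiff : DifferentiableOn ℂ P (U (-(1/2)) (s/4)) := fun ζ hζ =>
    (hPd ζ hζ).differentiableAt.differentiableWithinAt
  have hQdiff : DifferentiableOn ℂ Q (U (-(1/2)) (s/4)) := fun ζ hζ =>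
    (hQd ζ hζ).differentiableAt.differentiableWithinAt
  refine ⟨fun z => (P (ψ z) - P 0) / (p * D), fun z => (Q (ψ z) - Q 0) / (q * D),
    mkS hD hψ0 hψd hψdiff hψi hψm hpne hP0 hPdiff hPi,
    mkS hD hψ0 hψd hψdiff hψi hψm hqne hQ0 hQdiff hQi,
    (α:ℂ) * ((0 - P 0) / (p * D)) + (β:ℂ) * ((0 - Q 0) / (q * D)), ?_⟩
  -- the points
  set Z : ℕ → ℂ := fun n => ((Real.pi * n - Real.pi / 4 : ℝ) : ℂ) + ((-(Real.log 2 / 2) : ℝ) : ℂ) * I
    with hZ
  have hlog2 : Real.log 2 < 1 := by have := Real.log_two_lt_d9; linarith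
  have hlog2' : 0 < Real.log 2 := Real.log_pos (by norm_num)
  have hZim : ∀ n, (Z n).im = -(Real.log 2 / 2) := by
    intro n
    simp only [hZ, add_im, ofReal_im, im_ofReal_mul, I_im]
    ring
  have hZre : ∀ n, (Z n).re = Real.pi * n - Real.pi / 4 := by
    intro n
    simp only [hZ, add_re, ofReal_re, re_ofReal_mul, I_re]
    ring
  have hZU : ∀ n, Z n ∈ U (-(1/2)) (s/4) := by
    intro n
    constructor
    · rw [hZim]; linarith
    · rw [hZim]; linarith
  have hZe : ∀ n, exp ((1 + I) * Z n) = -(2 * I) * exp ((1 - I) * Z n) := by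
    intro n
    have e1 : (1 + I) * Z n = (1 - I) * Z n + (2 * I * Z n) := by ring
    have e2 : exp (2 * I * Z n) = -(2 * I) := by
      have e3 : 2 * I * Z n = ((Real.log 2 : ℝ) : ℂ) + (-(Real.pi / 2 * I) + (n : ℤ) * (2 * Real.pi * I)) := by
        simp only [hZ]
        push_cast
        linear_combination (-(Real.log 2 : ℂ)) * hI
      rw [e3, exp_add, exp_add, exp_int_mul_two_pi_mul_I, exp_neg, exp_pi_div_two_mul_I, ← ofReal_exp,
        Real.exp_log (by norm_num)]
      simp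
    rw [e1, exp_add, e2]
    ring
  have hcomb : ∀ n, (α:ℂ) * (P (Z n) / p) + (β:ℂ) * (Q (Z n) / q) = 0 := by
    intro n
    have hz1 := pole1 hspos hs3 (hZU n)
    have hz2 := pole2 hspos hs3 (hZU n)
    simp only [hP, hQ, hp, hq]
    rw [hZe n] at hz1 ⊢
    set X := exp ((1 - I) * Z n) with hX
    have e1 : (s + 2 * I : ℂ) + (1 - s) * (-(2 * I) * X) = (s + 2 * I : ℂ) - 2 * I * (1 - s) * X := by
      ring
    rw [e1] at hz1 ⊢
    generalize (s + 2 * I : ℂ) - 2 * I * (1 - s) * X = d at hz1 ⊢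
    have key : -(2 * I) * (α:ℂ) * (1 - I) + (β:ℂ) * (s:ℂ)^2 * (1 + I) = 0 := by
      linear_combination (2 * α) * hI + (1 + I) * hs2c
    have e5 : (α:ℂ) * (-(2 * I) * X / d / ((1 + I) * (s + 2 * I) / (1 + 2 * I)^2)) +
        (β:ℂ) * (X / d / ((1 - I) * (s + 2 * I) / (s * (1 + 2 * I))^2)) =
        X * (1 + 2 * I)^2 / (d * (s + 2 * I) * (1 + I) * (1 - I)) *
        (-(2 * I) * (α:ℂ) * (1 - I) + (β:ℂ) * (s:ℂ)^2 * (1 + I)) := by
      exact comb_aux hz1 h1i h1i' hs2i h12i hsne
    rw [e5, key, mul_zero]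
  choose z hz1 hz2 using fun n => hψs (Z n) (hZU n)
  apply Set.infinite_of_injective_forall_mem (f := z)
  · intro n m hnm
    have h1 : Z n = Z m := by rw [← hz2 n, ← hz2 m, hnm]
    have h2 := congrArg Complex.re h1
    rw [hZre, hZre] at h2
    have h3 : Real.pi * ((n:ℝ) - m) = 0 := by linarith
    rcases mul_eq_zero.1 h3 with h4 | h4
    · exact absurd h4 Real.pi_pos.ne'
    · have : (n:ℝ) = m := by linarith
      exact_mod_cast this
  · intro n
    refine ⟨hz1 n, ?_⟩
    simp only [hz2 n]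
    have := hcomb n
    have e : (α:ℂ) * ((P (Z n) - P 0) / (p * D)) + (β:ℂ) * ((Q (Z n) - Q 0) / (q * D)) =
        (((α:ℂ) * (P (Z n) / p) + (β:ℂ) * (Q (Z n) / q)) / D) +
        ((α:ℂ) * ((0 - P 0) / (p * D)) + (β:ℂ) * ((0 - Q 0) / (q * D))) := by
      field_simp
      ring
    rw [e, this]
    simp

end Pool.Agent.Results.MP_f04b5a_an.InfiniteValence
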